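import Mathlib

/-!
A lower bound for sequences with a convolution inequality.
-/

set_option autoImplicit false
set_option linter.all false

open Finset Filter Real

namespace Pool.Agent.X261.CT

theorem step {α : ℝ} (h0 : 0 < α) (h1 : α < 1) {m : ℕ} (hm : 1 ≤ m) :
    ((m : ℝ) + 1) ^ α - (m : ℝ) ^ α ≤ α * (m : ℝ) ^ (α - 1) := by
  have hm' : (0 : ℝ) < m := by exact_mod_cast hm
  have hd : (0 : ℝ) < 1 / m := one_div_pos.2 hm'
  have h2 : (1 + (1 : ℝ) / m) ^ α ≤ 1 + α * (1 / m) :=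
    rpow_one_add_le_one_add_mul_self (by linarith) h0.le h1.le
  have h3 : ((m : ℝ) + 1) ^ α = (m : ℝ) ^ α * (1 + 1 / m) ^ α := by
    rw [← mul_rpow hm'.le (by positivity)]
    congr 1
    field_simp
  have h4 : (m : ℝ) ^ (α - 1) = (m : ℝ) ^ α / m := rpow_sub_one hm'.ne' α
  have h5 := mul_le_mul_of_nonneg_left h2 (rpow_nonneg hm'.le α)
  rw [h3, h4]
  calc (m : ℝ) ^ α * (1 + 1 / m) ^ α - (m : ℝ) ^ α
      ≤ (m : ℝ) ^ α * (1 + α * (1 / m)) - (m : ℝ) ^ α := by linarith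
    _ = α * ((m : ℝ) ^ α / m) := by ring

theorem sum_ge {α : ℝ} (h0 : 0 < α) (h1 : α < 1) {a b : ℕ} (ha : 1 ≤ a) (hab : a ≤ b) :
    (b : ℝ) ^ α - (a : ℝ) ^ α ≤ α * ∑ m ∈ Ico a b, (m : ℝ) ^ (α - 1) := by
  induction b, hab using Nat.le_induction with
  | base => simp
  | succ b hab ih =>
    rw [sum_Ico_succ_top hab, mul_add]
    have h2 := step h0 h1 (ha.trans hab)
    push_cast
    linarith

theorem large {α β : ℝ} (h0 : 0 < α) (h1 : α < 1) (hβ : α < β) (J : ℕ) :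
    ∀ᶠ n : ℕ in atTop, (n : ℝ) ^ α ≤ β / α * (((n + 1 - J : ℕ) : ℝ) ^ α - 3 ^ α) := by
  have hβα : 1 < β / α := (one_lt_div h0).2 hβ
  have t1 : Tendsto (fun n : ℕ => (J : ℝ) / n) atTop (nhds 0) :=
    tendsto_const_div_atTop_nhds_zero_nat (J : ℝ)
  have t2 : Tendsto (fun n : ℕ => (3 : ℝ) ^ α * ((n : ℝ) ^ (-α))) atTop (nhds 0) := by
    have h := (tendsto_rpow_neg_atTop h0).comp tendsto_natCast_atTop_atTop
    have h' := h.const_mul ((3 : ℝ) ^ α)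
    rwa [mul_zero] at h'
  have t3 : Tendsto (fun n : ℕ => β / α * (1 - (J : ℝ) / n - 3 ^ α * (n : ℝ) ^ (-α))) atTop
      (nhds (β / α * (1 - 0 - 0))) := (((tendsto_const_nhds.sub t1).sub t2).const_mul _)
  have t4 : ∀ᶠ n : ℕ in atTop, 1 < β / α * (1 - (J : ℝ) / n - 3 ^ α * (n : ℝ) ^ (-α)) := by
    refine t3.eventually_const_lt ?_
    simpa using hβα
  filter_upwards [t4, eventually_ge_atTop (J + 1)] with n hn hnJ
  have hn0 : (0 : ℝ) < n := by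
    have : 0 < n := by omega
    exact_mod_cast this
  have hJn : (J : ℝ) / n ≤ 1 := by
    rw [div_le_one hn0]
    have : J ≤ n := by omega
    exact_mod_cast this
  have hJ0 : 0 ≤ (J : ℝ) / n := by positivity
  have e1 : (n : ℝ) ^ α * (1 - (J : ℝ) / n) ≤ ((n + 1 - J : ℕ) : ℝ) ^ α := by
    have h2 : (1 - (J : ℝ) / n) ≤ (1 - (J : ℝ) / n) ^ α := by
      rcases eq_or_lt_of_le hJn with h | h
      · rw [h, sub_self, zero_rpow h0.ne']
      · calc (1 - (J : ℝ) / n) = (1 - (J : ℝ) / n) ^ (1 : ℝ) := (rpow_one _).symm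
          _ ≤ _ := rpow_le_rpow_of_exponent_ge (by linarith) (by linarith) h1.le
    have h3 : (n : ℝ) * (1 - (J : ℝ) / n) ≤ ((n + 1 - J : ℕ) : ℝ) := by
      have e : (n : ℝ) * (1 - (J : ℝ) / n) = n - J := by
        field_simp
      rw [e, Nat.cast_sub (by omega)]
      push_cast
      linarith
    calc (n : ℝ) ^ α * (1 - (J : ℝ) / n) ≤ (n : ℝ) ^ α * (1 - (J : ℝ) / n) ^ α :=
          mul_le_mul_of_nonneg_left h2 (rpow_nonneg hn0.le α)
      _ = ((n : ℝ) * (1 - (J : ℝ) / n)) ^ α := (mul_rpow hn0.le (by linarith)).symm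
      _ ≤ _ := rpow_le_rpow (mul_nonneg hn0.le (by linarith)) h3 h0.le
  have e2 : (n : ℝ) ^ α * (n : ℝ) ^ (-α) = 1 := by
    rw [← rpow_add hn0, add_neg_cancel, rpow_zero]
  have hnα : 0 < (n : ℝ) ^ α := rpow_pos_of_pos hn0 α
  calc (n : ℝ) ^ α = (n : ℝ) ^ α * 1 := (mul_one _).symm
    _ ≤ (n : ℝ) ^ α * (β / α * (1 - (J : ℝ) / n - 3 ^ α * (n : ℝ) ^ (-α))) :=
        mul_le_mul_of_nonneg_left hn.le hnα.le
    _ = β / α * ((n : ℝ) ^ α * (1 - (J : ℝ) / n) - 3 ^ α * ((n : ℝ) ^ α * (n : ℝ) ^ (-α))) := by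
        ring
    _ = β / α * ((n : ℝ) ^ α * (1 - (J : ℝ) / n) - 3 ^ α) := by rw [e2, mul_one]
    _ ≤ _ := mul_le_mul_of_nonneg_left (by linarith) (by linarith)

/-- The lower bound. -/
theorem growth {σ : ℕ → ℝ} {α β : ℝ} {J : ℕ} (h0 : 0 < α) (h1 : α < 1) (hβ : α < β) (hJ : 1 ≤ J)
    (hσ : ∀ n, 0 ≤ σ n) (hpos : ∀ n, 3 ≤ n → 0 < σ n)
    (hrec : ∀ n, β * ∑ m ∈ range (n + 1 - J), σ m ≤ n * σ n) :
    ∃ c : ℝ, 0 < c ∧ ∀ n : ℕ, 3 ≤ n → c * (n : ℝ) ^ (α - 1) ≤ σ n := by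
  obtain ⟨n0, hn0⟩ := eventually_atTop.1 (large h0 h1 hβ J)
  set n1 := max n0 (J + 3) with hn1
  obtain ⟨c, hc, hcn⟩ : ∃ c : ℝ, 0 < c ∧ ∀ n ∈ Icc 3 n1, c * (n : ℝ) ^ (α - 1) ≤ σ n := by
    have hne : (Icc 3 n1).Nonempty := ⟨3, mem_Icc.2 ⟨le_rfl, by omega⟩⟩
    obtain ⟨m, hm, hmin⟩ := exists_min_image (Icc 3 n1) (fun n => σ n / (n : ℝ) ^ (α - 1)) hne
    have hm3 := (mem_Icc.1 hm).1
    have hm0 : (0 : ℝ) < m := by
      have : 0 < m := by omega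
      exact_mod_cast this
    refine ⟨σ m / (m : ℝ) ^ (α - 1), div_pos (hpos m hm3) (rpow_pos_of_pos hm0 _), fun n hn => ?_⟩
    have hn3 := (mem_Icc.1 hn).1
    have hn0 : (0 : ℝ) < n := by
      have : 0 < n := by omega
      exact_mod_cast this
    have := hmin n hn
    rwa [le_div_iff₀ (rpow_pos_of_pos hn0 _)] at this
  refine ⟨c, hc, fun n => ?_⟩
  induction n using Nat.strong_induction_on with
  | _ n ih =>
    intro hn3
    by_cases hle : n ≤ n1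
    · exact hcn n (mem_Icc.2 ⟨hn3, hle⟩)
    · have hnn : n0 ≤ n := by omega
      have hnJ : J + 3 ≤ n := by omega
      have hn0' : (0 : ℝ) < n := by
        have : 0 < n := by omega
        exact_mod_cast this
      have h2 := hn0 n hnn
      have h3 : 3 ≤ n + 1 - J := by omega
      have h4 := sum_ge h0 h1 (a := 3) (b := n + 1 - J) (by norm_num) h3
      have h5 : c * ∑ m ∈ Ico 3 (n + 1 - J), (m : ℝ) ^ (α - 1) ≤
          ∑ m ∈ range (n + 1 - J), σ m := by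
        rw [mul_sum]
        calc ∑ m ∈ Ico 3 (n + 1 - J), c * (m : ℝ) ^ (α - 1) ≤ ∑ m ∈ Ico 3 (n + 1 - J), σ m :=
              sum_le_sum fun m hm => ih m (by have := (mem_Ico.1 hm).2; omega) (mem_Ico.1 hm).1
          _ ≤ ∑ m ∈ range (n + 1 - J), σ m := by
              refine sum_le_sum_of_subset_of_nonneg ?_ fun m _ _ => hσ m
              intro m hm
              exact mem_range.2 (mem_Ico.1 hm).2
      have h6 := hrec n
      have hβ0 : 0 < β := h0.trans hβ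
      have h7 : β / α * (((n + 1 - J : ℕ) : ℝ) ^ α - 3 ^ α) ≤
          β * ∑ m ∈ Ico 3 (n + 1 - J), (m : ℝ) ^ (α - 1) := by
        rw [div_mul_eq_mul_div, div_le_iff₀ h0, mul_assoc]
        refine mul_le_mul_of_nonneg_left ?_ hβ0.le
        rw [mul_comm]
        exact_mod_cast h4
      have h8 : c * (n : ℝ) ^ α ≤ n * σ n := by
        calc c * (n : ℝ) ^ α ≤ c * (β * ∑ m ∈ Ico 3 (n + 1 - J), (m : ℝ) ^ (α - 1)) :=
              mul_le_mul_of_nonneg_left (h2.trans h7) hc.le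
          _ = β * (c * ∑ m ∈ Ico 3 (n + 1 - J), (m : ℝ) ^ (α - 1)) := by ring
          _ ≤ β * ∑ m ∈ range (n + 1 - J), σ m := mul_le_mul_of_nonneg_left h5 hβ0.le
          _ ≤ _ := h6
      rw [rpow_sub_one hn0'.ne', mul_div_assoc', div_le_iff₀ hn0', mul_comm (σ n)]
      exact h8

end Pool.Agent.X261.CT
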