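import Pool.Agent.X261.CT.Grw
import Pool.Agent.X261.SE.Comp
import Pool.Agent.X261.TS.Kum

/-!
The number of the inert primes of the compositions of the polynomials `x ^ r + c`.
-/

set_option autoImplicit false
set_option linter.all false

open Finset Polynomial
open scoped Classical

namespace Pool.Agent.X261.CT

open Pool.Agent.X261.SE (composite crit Good)

variable {k : Type} [Field k] [Finite k]

theorem list_cast (s : List (ℕ × k)) :
    (((s.map fun x => (1 : ℚ) / x.1).sum : ℚ) : ℝ) = (s.map fun x => (1 : ℝ) / x.1).sum := by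
  induction s with
  | nil => simp
  | cons x s ih =>
    rw [List.map_cons, List.sum_cons, List.map_cons, List.sum_cons, Rat.cast_add, ih]
    push_cast
    rfl

theorem comp_lower (hq : 3 ≤ Nat.card k) (s : List (ℕ × k))
    (hs : ∀ x ∈ s, x.1.Prime ∧ Odd x.1 ∧ x.1 ∣ Nat.card k - 1) {N : ℕ} (hN : 0 < N) :
    (1 - (s.map fun x => (1 : ℝ) / x.1).sum) * (Nat.card k : ℝ) ^ N ≤
      N * (sel (fun P : k[X] => Irreducible (P.comp (composite s))) N).card +
        (s.length + 2) * (Nat.card k : ℝ) ^ (N / 2) := by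
  have h1 := Pool.Agent.X261.SE.count_good s hs hN
  have h2 : {P : {P : k[X] // P.Monic ∧ Irreducible P} | P.1.natDegree = N ∧
      Good s P.1}.ncard ≤ (sel (fun P : k[X] => Irreducible (P.comp (composite s))) N).card := by
    rw [← Set.ncard_image_of_injective _ Subtype.val_injective, ← Set.ncard_coe_finset]
    refine Set.ncard_le_ncard ?_ (Finset.finite_toSet _)
    rintro _ ⟨P, ⟨hP1, hP2⟩, rfl⟩
    rw [mem_coe, mem_sel]
    exact ⟨⟨P.2.1, P.2.2, hP1⟩, Pool.Agent.X261.SE.irr_composite s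
      (fun x hx => ⟨(hs x hx).1, (hs x hx).2.1⟩) P hP2⟩
  have h3 := Pool.Agent.X261.TS.divisor_bound hq N
  have h1' : (((Nat.card k : ℚ) ^ N * (1 - (s.map fun x => (1 : ℚ) / x.1).sum) -
      ∑ d ∈ N.properDivisors, (Nat.card k : ℚ) ^ d - s.length : ℚ) : ℝ) ≤
      ((N * ({P : {P : k[X] // P.Monic ∧ Irreducible P} | P.1.natDegree = N ∧
        Good s P.1}.ncard : ℚ) : ℚ) : ℝ) := by exact_mod_cast h1
  push_cast at h1'
  have hc := list_cast s
  push_cast at hc
  rw [hc] at h1'
  have h4 : (({P : {P : k[X] // P.Monic ∧ Irreducible P} | P.1.natDegree = N ∧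
      Good s P.1}.ncard : ℕ) : ℝ) ≤
      ((sel (fun P : k[X] => Irreducible (P.comp (composite s))) N).card : ℝ) := by
    exact_mod_cast h2
  have h5 : 3 * ∑ d ∈ N.properDivisors, (Nat.card k : ℝ) ^ d + 1 ≤
      6 * (Nat.card k : ℝ) ^ (N / 2) := by exact_mod_cast h3
  have h6 : (1 : ℝ) ≤ (Nat.card k : ℝ) ^ (N / 2) := by
    exact_mod_cast Nat.one_le_pow (N / 2) _ (by omega)
  have h7 : (s.length : ℝ) ≤ s.length * (Nat.card k : ℝ) ^ (N / 2) :=
    le_mul_of_one_le_right (Nat.cast_nonneg _) h6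
  have h8 := mul_le_mul_of_nonneg_left h4 (Nat.cast_nonneg (α := ℝ) N)
  nlinarith

theorem inert_unit {f P : k[X]} {c : k} (hc : c ≠ 0) (h : Irreducible (P.comp f)) :
    Irreducible ((C c * P).comp f) := by
  rw [mul_comp, C_comp]
  exact (irreducible_isUnit_mul (isUnit_C.2 (isUnit_iff_ne_zero.2 hc))).2 h

theorem sum_nonneg' (s : List (ℕ × k)) : 0 ≤ (s.map fun x => (1 : ℝ) / x.1).sum := by
  induction s with
  | nil => simp
  | cons x s ih =>
    rw [List.map_cons, List.sum_cons]
    have : (0 : ℝ) ≤ 1 / x.1 := by positivity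
    linarith

/-- The number of the monic squarefree polynomials with all prime factors inert. -/
theorem comp_count (hq : 3 ≤ Nat.card k) (s : List (ℕ × k))
    (hs : ∀ x ∈ s, x.1.Prime ∧ Odd x.1 ∧ x.1 ∣ Nat.card k - 1) {α : ℝ} (h0 : 0 < α)
    (hα : α < 1 - (s.map fun x => (1 : ℝ) / x.1).sum) :
    ∃ (M : ℕ) (c : ℝ), 0 < c ∧ ∀ n : ℕ, M ≤ n → c * (n : ℝ) ^ (α - 1) * (Nat.card k : ℝ) ^ n ≤
      {D : k[X] | D.Monic ∧ Squarefree D ∧ D.natDegree = n ∧
        ∀ P : k[X], Irreducible P → P ∣ D → Irreducible (P.comp (composite s))}.ncard :=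
  set_count (fun P : k[X] => Irreducible (P.comp (composite s))) (fun P c hc h => inert_unit hc h)
    hq (C' := (s.length : ℝ) + 2) (by positivity) (by linarith [sum_nonneg' s])
    (fun N hN => comp_lower hq s hs hN) h0 hα

theorem composite_monic (s : List (ℕ × k)) (hs : ∀ x ∈ s, x.1 ≠ 0) : (composite s).Monic := by
  induction s with
  | nil => exact monic_X
  | cons x s ih =>
    obtain ⟨r, c⟩ := x
    have h1 := ih fun x hx => hs x (List.mem_cons_of_mem _ hx)
    have h2 : (composite s).natDegree ≠ 0 := by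
      rw [Pool.Agent.X261.SE.natDegree_composite]
      intro h
      rw [List.prod_eq_zero_iff] at h
      obtain ⟨y, hy, hy0⟩ := List.mem_map.1 h
      exact hs y (List.mem_cons_of_mem _ hy) hy0
    exact (monic_X_pow_add_C c (hs (r, c) List.mem_cons_self)).comp h1 h2

end Pool.Agent.X261.CT
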