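import Pool.Agent.X261.CT.Ana
import Pool.Agent.X261.TS.Ext
import Pool.Agent.X261.TD.Sqf

/-!
The number of the squarefree polynomials whose prime factors lie in a given set of primes.
-/

set_option autoImplicit false
set_option linter.all false

open Polynomial Finset
open scoped Classical

namespace Pool.Agent.X261.CT

open Pool.Agent.TH943.HJ (primes mem_primes)
open Pool.Agent.X261.TD (irr irr_finite sqf sqf_finite prod_primes pset_primes coprime_of_ne)

variable {k : Type} [Field k] [Finite k] (A : k[X] → Prop)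

/-- the primes of degree `N` in `A` -/
noncomputable def sel (N : ℕ) : Finset k[X] := (irr_finite (k := k) N).toFinset.filter A

/-- the squarefree polynomials of degree `n` with all primes in `A` -/
noncomputable def prd (n : ℕ) : Finset k[X] :=
  (sqf_finite (k := k) n).toFinset.filter fun D => ∀ P ∈ primes D, A P

variable {A}

theorem mem_sel {N : ℕ} {P : k[X]} :
    P ∈ sel A N ↔ (P.Monic ∧ Irreducible P ∧ P.natDegree = N) ∧ A P := by
  unfold sel
  rw [mem_filter, Set.Finite.mem_toFinset]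
  rfl

theorem mem_prd {n : ℕ} {D : k[X]} :
    D ∈ prd A n ↔ (D.Monic ∧ Squarefree D ∧ D.natDegree = n) ∧ ∀ P ∈ primes D, A P := by
  unfold prd
  rw [mem_filter, Set.Finite.mem_toFinset]
  rfl

theorem sum_deg {n : ℕ} {D : k[X]} (h : D ∈ prd A n) : ∑ P ∈ primes D, P.natDegree = n := by
  obtain ⟨⟨hm, hs, hd⟩, -⟩ := mem_prd.1 h
  conv_rhs => rw [← hd, ← prod_primes hm hs]
  rw [natDegree_prod_of_monic _ _ fun P hP => (pset_primes hm.ne_zero P hP).1]

theorem insert_mem {j m : ℕ} {P D : k[X]} (hP : P ∈ sel A j) (hD : D ∈ prd A m)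
    (h : ¬ P ∣ D) : P * D ∈ prd A (j + m) := by
  obtain ⟨⟨hPm, hPi, hPd⟩, hPA⟩ := mem_sel.1 hP
  obtain ⟨⟨hm, hs, hd⟩, hA⟩ := mem_prd.1 hD
  rw [mem_prd]
  refine ⟨⟨hPm.mul hm, ?_, ?_⟩, ?_⟩
  · have hc : IsCoprime P D := (Irreducible.coprime_iff_not_dvd hPi).2 h
    exact (squarefree_mul_iff.2 ⟨hc.isRelPrime, hPi.squarefree, hs⟩)
  · rw [hPm.natDegree_mul hm, hPd, hd]
  · intro Q hQ
    obtain ⟨hQm, hQi, hQd⟩ := (mem_primes (mul_ne_zero hPi.ne_zero hm.ne_zero) Q).1 hQ
    rcases hQi.prime.dvd_or_dvd hQd with h1 | h1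
    · rw [eq_of_monic_of_associated hQm hPm (hQi.associated_of_dvd hPi h1)]
      exact hPA
    · exact hA Q ((mem_primes hm.ne_zero Q).2 ⟨hQm, hQi, h1⟩)

theorem remove_mem {j m : ℕ} {P D : k[X]} (hP : P ∈ sel A j) (hD : P * D ∈ prd A m) :
    j ≤ m ∧ D ∈ prd A (m - j) := by
  obtain ⟨⟨hPm, hPi, hPd⟩, hPA⟩ := mem_sel.1 hP
  obtain ⟨⟨hm, hs, hd⟩, hA⟩ := mem_prd.1 hD
  have hDm : D.Monic := Monic.of_mul_monic_left hPm hm
  rw [hPm.natDegree_mul hDm, hPd] at hd
  refine ⟨by omega, mem_prd.2 ⟨⟨hDm, hs.squarefree_of_dvd (Dvd.intro_left _ rfl), by omega⟩, ?_⟩⟩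
  intro Q hQ
  obtain ⟨hQm, hQi, hQd⟩ := (mem_primes hDm.ne_zero Q).1 hQ
  exact hA Q ((mem_primes hm.ne_zero Q).2 ⟨hQm, hQi, hQd.mul_left P⟩)

/-- the pairs -/
noncomputable def prs (A : k[X] → Prop) (j n : ℕ) : Finset (k[X] × k[X]) :=
  (prd A n ×ˢ sel A j).filter fun x => x.2 ∣ x.1

theorem card_split' {j n : ℕ} (hj : j ≤ n) : (sel A j).card * (prd A (n - j)).card ≤
    (prs A j n).card + if 2 * j ≤ n then (sel A j).card * (prd A (n - 2 * j)).card else 0 := by
  have h1 := Finset.card_filter_add_card_filter_not (s := sel A j ×ˢ prd A (n - j))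
    (fun x => ¬ x.1 ∣ x.2)
  rw [card_product] at h1
  have h2 : ((sel A j ×ˢ prd A (n - j)).filter fun x => ¬ x.1 ∣ x.2).card ≤ (prs A j n).card := by
    refine card_le_card_of_injOn (fun x => (x.1 * x.2, x.1)) ?_ ?_
    · rintro ⟨P, D⟩ hx
      rw [mem_coe, mem_filter, mem_product] at hx
      obtain ⟨⟨hP, hD⟩, hPD⟩ := hx
      show (P * D, P) ∈ (prs A j n : Set (k[X] × k[X]))
      rw [mem_coe]
      unfold prs
      rw [mem_filter, mem_product]
      refine ⟨⟨?_, hP⟩, Dvd.intro _ rfl⟩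
      have := insert_mem hP hD hPD
      rwa [show j + (n - j) = n by omega] at this
    · rintro ⟨P, D⟩ hx ⟨P', D'⟩ hx' he
      rw [mem_coe, mem_filter, mem_product] at hx
      simp only [Prod.mk.injEq] at he
      obtain ⟨h3, h4⟩ := he
      subst h4
      have hP0 : P ≠ 0 := (mem_sel.1 hx.1.1).1.2.1.ne_zero
      rw [mul_left_cancel₀ hP0 h3]
  have h3 : ((sel A j ×ˢ prd A (n - j)).filter fun x => ¬ ¬ x.1 ∣ x.2).card ≤
      if 2 * j ≤ n then (sel A j).card * (prd A (n - 2 * j)).card else 0 := by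
    split_ifs with h
    · rw [← card_product]
      have key : ∀ x ∈ (sel A j ×ˢ prd A (n - j)).filter fun x => ¬ ¬ x.1 ∣ x.2,
          x.1 * (x.2 / x.1) = x.2 ∧ x.1 ∈ sel A j ∧ x.2 / x.1 ∈ prd A (n - 2 * j) := by
        rintro ⟨P, D⟩ hx
        rw [mem_filter, mem_product, not_not] at hx
        obtain ⟨⟨hP, hD⟩, hPD⟩ := hx
        dsimp only at hP hD hPD ⊢
        have hP0 : P ≠ 0 := (mem_sel.1 hP).1.2.1.ne_zero
        have e : P * (D / P) = D := EuclideanDomain.mul_div_cancel' hP0 hPD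
        refine ⟨e, hP, ?_⟩
        rw [← e] at hD
        have := (remove_mem hP hD).2
        rwa [show n - j - j = n - 2 * j by omega] at this
      refine card_le_card_of_injOn (fun x => (x.1, x.2 / x.1)) ?_ ?_
      · intro x hx
        obtain ⟨h4, h5, h6⟩ := key x hx
        exact mem_coe.2 (mem_product.2 ⟨h5, h6⟩)
      · intro x hx y hy he
        obtain ⟨h4, -, -⟩ := key x hx
        obtain ⟨h5, -, -⟩ := key y hy
        simp only [Prod.mk.injEq] at he
        refine Prod.ext he.1 ?_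
        rw [← h4, ← h5, he.2, he.1]
    · rw [Nat.le_zero, card_eq_zero, filter_eq_empty_iff]
      rintro ⟨P, D⟩ hx hPD
      rw [mem_product] at hx
      obtain ⟨hP, hD⟩ := hx
      rw [not_not] at hPD
      obtain ⟨Z, hZ⟩ := hPD
      dsimp only at hP hD hZ
      rw [hZ] at hD
      have := (remove_mem hP hD).1
      omega
  omega

theorem sum_prs (J n : ℕ) : ∑ j ∈ Icc J n, j * (prs A j n).card ≤ n * (prd A n).card := by
  have h1 : ∀ j, (prs A j n).card = ∑ D ∈ prd A n, ((sel A j).filter fun P => P ∣ D).card := by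
    intro j
    unfold prs
    rw [card_filter, sum_product]
    refine sum_congr rfl fun D _ => ?_
    rw [card_filter]
  have h2 : ∀ D ∈ prd A n, ∑ j ∈ Icc J n, j * ((sel A j).filter fun P => P ∣ D).card ≤ n := by
    intro D hD
    have hD0 : D ≠ 0 := (mem_prd.1 hD).1.1.ne_zero
    conv_rhs => rw [← sum_deg hD]
    calc ∑ j ∈ Icc J n, j * ((sel A j).filter fun P => P ∣ D).card
        ≤ ∑ j ∈ Icc J n, ∑ P ∈ (primes D).filter (fun P => P.natDegree = j), P.natDegree := by
          refine sum_le_sum fun j _ => ?_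
          have e : ∑ P ∈ (primes D).filter (fun P => P.natDegree = j), P.natDegree =
              j * ((primes D).filter (fun P => P.natDegree = j)).card := by
            rw [sum_congr rfl (g := fun _ => j) fun P hP => (mem_filter.1 hP).2, sum_const,
              smul_eq_mul, mul_comm]
          rw [e]
          refine Nat.mul_le_mul_left _ (card_le_card fun P hP => ?_)
          obtain ⟨hP1, hP2⟩ := mem_filter.1 hP
          obtain ⟨⟨h3, h4, h5⟩, -⟩ := mem_sel.1 hP1
          exact mem_filter.2 ⟨(mem_primes hD0 P).2 ⟨h3, h4, hP2⟩, h5⟩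
      _ ≤ ∑ P ∈ primes D, P.natDegree := by
          rw [← sum_biUnion]
          · refine sum_le_sum_of_subset fun P hP => ?_
            obtain ⟨j, -, hj⟩ := mem_biUnion.1 hP
            exact (mem_filter.1 hj).1
          · intro i _ j _ hij
            show Disjoint _ _
            rw [disjoint_left]
            intro P hP hP'
            exact hij ((mem_filter.1 hP).2.symm.trans (mem_filter.1 hP').2)
  calc ∑ j ∈ Icc J n, j * (prs A j n).card
      = ∑ D ∈ prd A n, ∑ j ∈ Icc J n, j * ((sel A j).filter fun P => P ∣ D).card := by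
        rw [sum_comm]
        refine sum_congr rfl fun j _ => ?_
        rw [h1, mul_sum]
    _ ≤ ∑ D ∈ prd A n, n := sum_le_sum h2
    _ = n * (prd A n).card := by rw [sum_const, smul_eq_mul, mul_comm]

/-- The basic inequality. -/
theorem basic {J n : ℕ} : ∑ j ∈ Icc J n, j * ((sel A j).card * (prd A (n - j)).card) ≤
    n * (prd A n).card +
      ∑ j ∈ Icc J n, if 2 * j ≤ n then j * ((sel A j).card * (prd A (n - 2 * j)).card) else 0 := by
  have h1 := sum_prs (A := A) J n
  have h2 : ∑ j ∈ Icc J n, j * ((sel A j).card * (prd A (n - j)).card) ≤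
      ∑ j ∈ Icc J n, (j * (prs A j n).card +
        if 2 * j ≤ n then j * ((sel A j).card * (prd A (n - 2 * j)).card) else 0) := by
    refine sum_le_sum fun j hj => ?_
    have h3 := Nat.mul_le_mul_left j (card_split' (A := A) (mem_Icc.1 hj).2)
    rw [mul_add] at h3
    refine h3.trans (Nat.add_le_add_left ?_ _)
    split_ifs
    · exact le_rfl
    · exact Nat.le_of_eq (mul_zero _)
  rw [sum_add_distrib] at h2
  omega

end Pool.Agent.X261.CT
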