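import Pool.Agent.X261.CT.Cnt
import Pool.Agent.TH943.PT.DkC

/-!
The number of the squarefree polynomials with all prime factors inert for a Dickson polynomial.
-/

set_option autoImplicit false
set_option linter.all false

open Finset

namespace Pool.Agent.X261.CT

/-- sequences with the basic inequality -/
theorem rec_gen {q : ℕ} (hq : 3 ≤ q) {a s : ℕ → ℕ} {δ C : ℝ} (hC : 0 ≤ C)
    (h1 : ∀ j, 0 < j → δ * (q : ℝ) ^ j ≤ j * a j + C * (q : ℝ) ^ (j / 2))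
    (h2 : ∀ j, 0 < j → j * a j ≤ q ^ j)
    (hb : ∀ J n, ∑ j ∈ Icc J n, j * (a j * s (n - j)) ≤
      n * s n + ∑ j ∈ Icc J n, if 2 * j ≤ n then j * (a j * s (n - 2 * j)) else 0)
    {β : ℝ} (hβ : β < δ) : ∃ J : ℕ, 1 ≤ J ∧ ∀ n : ℕ,
      β * ∑ m ∈ range (n + 1 - J), ((s m : ℝ) / (q : ℝ) ^ m) ≤ n * ((s n : ℝ) / (q : ℝ) ^ n) := by
  have hq0 : (0 : ℝ) < q := by
    have : 0 < q := by omega
    exact_mod_cast this
  have hq1 : (1 : ℝ) < q := by
    have : 1 < q := by omega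
    exact_mod_cast this
  -- choice of `J`
  obtain ⟨J0, hJ0⟩ : ∃ J0 : ℕ, (C + 1) / (δ - β) ≤ (q : ℝ) ^ J0 := by
    obtain ⟨J0, h⟩ := pow_unbounded_of_one_lt ((C + 1) / (δ - β)) hq1
    exact ⟨J0, h.le⟩
  refine ⟨2 * J0 + 1, by omega, fun n => ?_⟩
  set J := 2 * J0 + 1 with hJ
  have hε : 0 < δ - β := by linarith
  -- the second sum
  have hsec : ∑ j ∈ Icc J n, (if 2 * j ≤ n then j * (a j * s (n - 2 * j)) else 0) ≤
      ∑ i ∈ Icc J n, q ^ (i / 2) * s (n - i) := by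
    rw [← sum_filter]
    calc ∑ j ∈ (Icc J n).filter (fun j => 2 * j ≤ n), j * (a j * s (n - 2 * j))
        ≤ ∑ j ∈ (Icc J n).filter (fun j => 2 * j ≤ n), q ^ (2 * j / 2) * s (n - 2 * j) := by
          refine sum_le_sum fun j hj => ?_
          have hj0 : 0 < j := by
            have := (mem_Icc.1 (mem_filter.1 hj).1).1
            omega
          rw [← mul_assoc, Nat.mul_div_cancel_left j (by norm_num)]
          exact Nat.mul_le_mul_right _ (h2 j hj0)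
      _ = ∑ i ∈ ((Icc J n).filter (fun j => 2 * j ≤ n)).image (fun j => 2 * j),
            q ^ (i / 2) * s (n - i) := by
          rw [sum_image]
          intro x _ y _ h
          have : 2 * x = 2 * y := h
          omega
      _ ≤ _ := by
          refine sum_le_sum_of_subset fun i hi => ?_
          obtain ⟨j, hj, rfl⟩ := mem_image.1 hi
          obtain ⟨h5, h6⟩ := mem_filter.1 hj
          have := (mem_Icc.1 h5).1
          exact mem_Icc.2 ⟨by omega, h6⟩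
  have hmain : ∑ j ∈ Icc J n, j * (a j * s (n - j)) ≤
      n * s n + ∑ i ∈ Icc J n, q ^ (i / 2) * s (n - i) := (hb J n).trans (Nat.add_le_add_left hsec _)
  -- over the reals
  have hmainR : ∑ j ∈ Icc J n, (j : ℝ) * (a j * s (n - j)) ≤
      n * s n + ∑ i ∈ Icc J n, (q : ℝ) ^ (i / 2) * s (n - i) := by
    exact_mod_cast hmain
  have hcoef : ∀ i ∈ Icc J n, β * ((q : ℝ) ^ i * s (n - i)) ≤
      (i : ℝ) * (a i * s (n - i)) - (q : ℝ) ^ (i / 2) * s (n - i) := by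
    intro i hi
    have hiJ := (mem_Icc.1 hi).1
    have h3 := h1 i (by omega)
    have h4 : (C + 1) * (q : ℝ) ^ (i / 2) ≤ (δ - β) * (q : ℝ) ^ i := by
      have e : (q : ℝ) ^ i = (q : ℝ) ^ (i - i / 2) * (q : ℝ) ^ (i / 2) := by
        rw [← pow_add]
        congr 1
        omega
      rw [e, ← mul_assoc]
      refine mul_le_mul_of_nonneg_right ?_ (by positivity)
      have h5 : (q : ℝ) ^ J0 ≤ (q : ℝ) ^ (i - i / 2) := pow_le_pow_right₀ hq1.le (by omega)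
      have h6 := hJ0.trans h5
      rw [div_le_iff₀ hε] at h6
      linarith
    have h5 : β * (q : ℝ) ^ i ≤ i * a i - (q : ℝ) ^ (i / 2) := by linarith
    have h6 := mul_le_mul_of_nonneg_right h5 (Nat.cast_nonneg (s (n - i)) : (0 : ℝ) ≤ _)
    calc β * ((q : ℝ) ^ i * s (n - i)) = β * (q : ℝ) ^ i * s (n - i) := by ring
      _ ≤ (i * a i - (q : ℝ) ^ (i / 2)) * s (n - i) := h6
      _ = _ := by ring
  have hsum := sum_le_sum hcoef
  rw [sum_sub_distrib, ← mul_sum] at hsum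
  have hfin : β * ∑ i ∈ Icc J n, ((q : ℝ) ^ i * s (n - i)) ≤ n * s n := by linarith
  -- the change of the variable
  have hre : ∑ i ∈ Icc J n, ((q : ℝ) ^ i * s (n - i)) =
      (q : ℝ) ^ n * ∑ m ∈ range (n + 1 - J), ((s m : ℝ) / (q : ℝ) ^ m) := by
    rw [mul_sum]
    refine sum_nbij' (fun i => n - i) (fun m => n - m) ?_ ?_ ?_ ?_ ?_
    · intro i hi
      have := mem_Icc.1 hi
      exact mem_range.2 (by omega)
    · intro m hm
      have := mem_range.1 hm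
      exact mem_Icc.2 ⟨by omega, by omega⟩
    · intro i hi
      have := mem_Icc.1 hi
      show n - (n - i) = i
      omega
    · intro m hm
      have := mem_range.1 hm
      show n - (n - m) = m
      omega
    · intro i hi
      have hin := (mem_Icc.1 hi).2
      have e : (q : ℝ) ^ n = (q : ℝ) ^ i * (q : ℝ) ^ (n - i) := by
        rw [← pow_add]
        congr 1
        omega
      have hne : (q : ℝ) ^ (n - i) ≠ 0 := (pow_pos hq0 _).ne'
      rw [e]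
      field_simp
  rw [hre] at hfin
  rw [mul_div_assoc', le_div_iff₀ (pow_pos hq0 n)]
  calc (β * ∑ m ∈ range (n + 1 - J), ((s m : ℝ) / (q : ℝ) ^ m)) * (q : ℝ) ^ n
      = β * ((q : ℝ) ^ n * ∑ m ∈ range (n + 1 - J), ((s m : ℝ) / (q : ℝ) ^ m)) := by ring
    _ ≤ _ := hfin

theorem lower_gen {q : ℕ} (hq : 3 ≤ q) {a s : ℕ → ℕ} {δ C : ℝ} (hC : 0 ≤ C) (hδ : δ ≤ 1)
    (h1 : ∀ j, 0 < j → δ * (q : ℝ) ^ j ≤ j * a j + C * (q : ℝ) ^ (j / 2))
    (h2 : ∀ j, 0 < j → j * a j ≤ q ^ j)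
    (hb : ∀ J n, ∑ j ∈ Icc J n, j * (a j * s (n - j)) ≤
      n * s n + ∑ j ∈ Icc J n, if 2 * j ≤ n then j * (a j * s (n - 2 * j)) else 0)
    (hpos : ∀ n, 3 ≤ n → 0 < s n) {α : ℝ} (h0 : 0 < α) (hα : α < δ) :
    ∃ c : ℝ, 0 < c ∧ ∀ n : ℕ, 3 ≤ n → c * (n : ℝ) ^ (α - 1) * (q : ℝ) ^ n ≤ s n := by
  have hq0 : (0 : ℝ) < q := by
    have : 0 < q := by omega
    exact_mod_cast this
  obtain ⟨J, hJ, hrec⟩ := rec_gen hq hC h1 h2 hb (β := (α + δ) / 2) (by linarith)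
  obtain ⟨c, hc, h⟩ := growth (σ := fun n => (s n : ℝ) / (q : ℝ) ^ n) h0 (by linarith)
    (by linarith : α < (α + δ) / 2) hJ (fun n => by positivity)
    (fun n hn => div_pos (by exact_mod_cast hpos n hn) (pow_pos hq0 n)) hrec
  refine ⟨c, hc, fun n hn => ?_⟩
  have := h n hn
  rwa [le_div_iff₀ (pow_pos hq0 n)] at this

open Polynomial
open scoped Classical

variable {k : Type} [Field k] [Finite k]

/-- the number of the primes of degree `N` -/
theorem primes_le (A : k[X] → Prop) {N : ℕ} (hN : 0 < N) :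
    N * (sel A N).card ≤ Nat.card k ^ N := by
  obtain ⟨p, hp⟩ := CharP.exists k
  have : Fact (Nat.Prime p) := ⟨CharP.char_is_prime k p⟩
  have : NeZero N := ⟨hN.ne'⟩
  let L := FiniteField.Extension k p N
  have hfin : Module.finrank k L = N := FiniteField.finrank_extension k p N
  have hc := Pool.Agent.TH943.PT.count hfin A
  have e : (sel A N).card = {P : {P : k[X] // P.Monic ∧ Irreducible P} | P.1.natDegree = N ∧
      A P.1}.ncard := by
    rw [← Set.ncard_image_of_injective _ Subtype.val_injective, ← Set.ncard_coe_finset]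
    congr 1
    ext P
    rw [mem_coe, mem_sel]
    constructor
    · rintro ⟨⟨h3, h4, h5⟩, h6⟩
      exact ⟨⟨P, h3, h4⟩, ⟨h5, h6⟩, rfl⟩
    · rintro ⟨Q, hQ, rfl⟩
      exact ⟨⟨Q.2.1, Q.2.2, hQ.1⟩, hQ.2⟩
  rw [e, hc]
  refine (Set.ncard_le_card _).trans ?_
  rw [FiniteField.natCard_extension]

/-- The inert primes of degree `N` of the Dickson polynomial. -/
theorem dick_lower {ℓ : ℕ} (hℓ : ℓ.Prime) (h2 : ℓ ≠ 2) {a : k} (ha : a ≠ 0)
    (hd : ℓ ∣ Nat.card k ^ 2 - 1) (hq : 3 ≤ Nat.card k) {N : ℕ} (hN : 0 < N) :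
    ((ℓ : ℝ) - 1) / (2 * ℓ) * (Nat.card k : ℝ) ^ N ≤
      N * (sel (fun P : k[X] => Irreducible (P.comp (dickson 1 a ℓ))) N).card +
        3 * (Nat.card k : ℝ) ^ (N / 2) := by
  have h1 := Pool.Agent.TH943.PT.dick_inert hℓ h2 ha hd hN
  have e : (sel (fun P : k[X] => Irreducible (P.comp (dickson 1 a ℓ))) N).card =
      {P : {P : k[X] // P.Monic ∧ Irreducible P} | P.1.natDegree = N ∧
      Irreducible (P.1.comp (dickson 1 a ℓ))}.ncard := by
    rw [← Set.ncard_image_of_injective _ Subtype.val_injective, ← Set.ncard_coe_finset]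
    congr 1
    ext P
    rw [mem_coe, mem_sel]
    constructor
    · rintro ⟨⟨h3, h4, h5⟩, h6⟩
      exact ⟨⟨P, h3, h4⟩, ⟨h5, h6⟩, rfl⟩
    · rintro ⟨Q, hQ, rfl⟩
      exact ⟨⟨Q.2.1, Q.2.2, hQ.1⟩, hQ.2⟩
  rw [← e] at h1
  have h3 := Pool.Agent.X261.TS.divisor_bound hq N
  have h4 : 1 ≤ Nat.card k ^ N := Nat.one_le_pow _ _ (by omega)
  have hl0 : (0 : ℝ) < ℓ := by exact_mod_cast hℓ.pos
  have h5 : ((ℓ : ℝ) - 1) * ((Nat.card k : ℝ) ^ N - 1) ≤ 2 * ℓ *
      (N * (sel (fun P : k[X] => Irreducible (P.comp (dickson 1 a ℓ))) N).card +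
        ∑ d ∈ N.properDivisors, (Nat.card k : ℝ) ^ d) := by
    have h6 : (((ℓ - 1) * (Nat.card k ^ N - 1) : ℕ) : ℝ) ≤ ((2 * ℓ *
      (N * (sel (fun P : k[X] => Irreducible (P.comp (dickson 1 a ℓ))) N).card +
        ∑ d ∈ N.properDivisors, Nat.card k ^ d) : ℕ) : ℝ) := by exact_mod_cast h1
    rw [Nat.cast_mul, Nat.cast_sub hℓ.one_lt.le, Nat.cast_sub h4] at h6
    push_cast at h6
    exact h6
  have h6 : 3 * ∑ d ∈ N.properDivisors, (Nat.card k : ℝ) ^ d + 1 ≤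
      6 * (Nat.card k : ℝ) ^ (N / 2) := by exact_mod_cast h3
  have h7 : (1 : ℝ) ≤ (Nat.card k : ℝ) ^ (N / 2) := by
    exact_mod_cast Nat.one_le_pow (N / 2) _ (by omega)
  rw [div_mul_eq_mul_div, div_le_iff₀ (by positivity)]
  nlinarith

theorem four_le {ℓ : ℕ} (hℓ : ℓ.Prime) (h2 : ℓ ≠ 2) {q : ℕ} (hq : 3 ≤ q) (hd : ℓ ∣ q ^ 2 - 1) :
    4 ≤ q := by
  rcases Nat.lt_or_ge q 4 with h | h
  · exfalso
    have h3 : q = 3 := by omega
    rw [h3] at hd
    have h8 : (3 : ℕ) ^ 2 - 1 = 2 ^ 3 := by norm_num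
    rw [h8] at hd
    exact h2 ((Nat.prime_dvd_prime_iff_eq hℓ Nat.prime_two).1 (hℓ.dvd_of_dvd_pow hd))
  · exact h

/-- The number of the monic squarefree polynomials with all prime factors inert. -/
theorem dick_count {ℓ : ℕ} (hℓ : ℓ.Prime) (h2 : ℓ ≠ 2) {a : k} (ha : a ≠ 0)
    (hd : ℓ ∣ Nat.card k ^ 2 - 1) (hq : 3 ≤ Nat.card k) {α : ℝ} (h0 : 0 < α)
    (hα : α < ((ℓ : ℝ) - 1) / (2 * ℓ)) :
    ∃ c : ℝ, 0 < c ∧ ∀ n : ℕ, 3 ≤ n → c * (n : ℝ) ^ (α - 1) * (Nat.card k : ℝ) ^ n ≤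
      {D : k[X] | D.Monic ∧ Squarefree D ∧ D.natDegree = n ∧
        ∀ P : k[X], Irreducible P → P ∣ D → Irreducible (P.comp (dickson 1 a ℓ))}.ncard := by
  set A : k[X] → Prop := fun P => Irreducible (P.comp (dickson 1 a ℓ)) with hA
  have e2 : ∀ n, {D : k[X] | D.Monic ∧ Squarefree D ∧ D.natDegree = n ∧
      ∀ P : k[X], Irreducible P → P ∣ D → Irreducible (P.comp (dickson 1 a ℓ))}.ncard =
        (prd A n).card := by
    intro n
    rw [← Set.ncard_coe_finset]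
    congr 1
    ext D
    rw [mem_coe, mem_prd, Set.mem_setOf_eq]
    constructor
    · rintro ⟨h4, h5, h6, h7⟩
      refine ⟨⟨h4, h5, h6⟩, fun P hP => ?_⟩
      obtain ⟨-, h8, h9⟩ := (Pool.Agent.TH943.HJ.mem_primes h4.ne_zero P).1 hP
      exact h7 P h8 h9
    · rintro ⟨⟨h4, h5, h6⟩, h7⟩
      refine ⟨h4, h5, h6, fun P hP hPD => ?_⟩
      obtain ⟨Q, δ, hδ, hQ⟩ := Pool.Agent.TH943.HJ.exists_MI_eq hP
      have h8 : Irreducible (Q.1.comp (dickson 1 a ℓ)) := h7 Q.1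
        ((Pool.Agent.TH943.HJ.mem_primes h4.ne_zero Q.1).2 ⟨Q.2.1, Q.2.2,
          (Dvd.intro_left (C δ) hQ.symm).trans hPD⟩)
      rw [hQ, mul_comp, C_comp]
      exact (irreducible_isUnit_mul (isUnit_C.2 (isUnit_iff_ne_zero.2 hδ))).2 h8
  have hl : ∀ j, 0 < j → _ := fun j hj => dick_lower (k := k) hℓ h2 ha hd hq hj
  have hl3 : (3 : ℝ) ≤ ℓ := by
    have : 3 ≤ ℓ := by
      rcases Nat.lt_or_ge ℓ 3 with h | h
      · exfalso
        have := hℓ.two_le
        omega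
      · exact h
    exact_mod_cast this
  have hδ1 : (1 : ℝ) / 3 ≤ ((ℓ : ℝ) - 1) / (2 * ℓ) := by
    rw [div_le_div_iff₀ (by norm_num) (by positivity)]
    linarith
  have hδ2 : ((ℓ : ℝ) - 1) / (2 * ℓ) ≤ 1 := by
    rw [div_le_one (by positivity)]
    linarith
  have hpos : ∀ n, 3 ≤ n → 0 < (prd A n).card := by
    intro n hn
    have h4 := hl n (by omega)
    have h5 : 0 < (sel A n).card := by
      rcases Nat.eq_zero_or_pos (sel A n).card with h | h
      · exfalso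
        rw [h, Nat.cast_zero, mul_zero, zero_add] at h4
        have hq4 : (4 : ℝ) ≤ Nat.card k := by exact_mod_cast four_le hℓ h2 hq hd
        have h6 : (Nat.card k : ℝ) ^ n =
            (Nat.card k : ℝ) ^ (n - n / 2) * (Nat.card k : ℝ) ^ (n / 2) := by
          rw [← pow_add]
          congr 1
          omega
        rw [h6, ← mul_assoc] at h4
        have h7 : ((ℓ : ℝ) - 1) / (2 * ℓ) * (Nat.card k : ℝ) ^ (n - n / 2) ≤ 3 :=
          le_of_mul_le_mul_right h4 (by positivity)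
        have h8 : (4 : ℝ) ^ 2 ≤ (Nat.card k : ℝ) ^ (n - n / 2) :=
          (pow_le_pow_left₀ (by norm_num) hq4 2).trans
            (pow_le_pow_right₀ (by linarith) (by omega))
        nlinarith
      · exact h
    obtain ⟨P, hP⟩ := card_pos.1 h5
    obtain ⟨⟨h6, h7, h8⟩, h9⟩ := mem_sel.1 hP
    refine card_pos.2 ⟨P, mem_prd.2 ⟨⟨h6, h7.squarefree, h8⟩, fun Q hQ => ?_⟩⟩
    rw [Pool.Agent.TH943.HJ.primes_of_irreducible h6 h7, mem_singleton] at hQ
    rw [hQ]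
    exact h9
  obtain ⟨c, hc, h⟩ := lower_gen hq (a := fun j => (sel A j).card) (s := fun n => (prd A n).card)
    (by norm_num : (0 : ℝ) ≤ 3) hδ2 (fun j hj => hl j hj) (fun j hj => primes_le A hj)
    (fun J n => basic) hpos h0 hα
  exact ⟨c, hc, fun n hn => by rw [e2]; exact h n hn⟩

end Pool.Agent.X261.CT
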