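import Pool.Agent.X261.CT.Dic

/-!
The lower bound with an arbitrary starting point.
-/

set_option autoImplicit false
set_option linter.all false

open Finset Filter Real

namespace Pool.Agent.X261.CT

theorem large_from {α β M : ℝ} (h0 : 0 < α) (h1 : α < 1) (hβ : α < β) (J : ℕ) :
    ∀ᶠ n : ℕ in atTop, (n : ℝ) ^ α ≤ β / α * (((n + 1 - J : ℕ) : ℝ) ^ α - M ^ α) := by
  have hβα : 1 < β / α := (one_lt_div h0).2 hβ
  have t1 : Tendsto (fun n : ℕ => (J : ℝ) / n) atTop (nhds 0) :=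
    tendsto_const_div_atTop_nhds_zero_nat (J : ℝ)
  have t2 : Tendsto (fun n : ℕ => (M : ℝ) ^ α * ((n : ℝ) ^ (-α))) atTop (nhds 0) := by
    have h := (tendsto_rpow_neg_atTop h0).comp tendsto_natCast_atTop_atTop
    have h' := h.const_mul ((M : ℝ) ^ α)
    rwa [mul_zero] at h'
  have t3 : Tendsto (fun n : ℕ => β / α * (1 - (J : ℝ) / n - M ^ α * (n : ℝ) ^ (-α))) atTop
      (nhds (β / α * (1 - 0 - 0))) := (((tendsto_const_nhds.sub t1).sub t2).const_mul _)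
  have t4 : ∀ᶠ n : ℕ in atTop, 1 < β / α * (1 - (J : ℝ) / n - M ^ α * (n : ℝ) ^ (-α)) := by
    refine t3.eventually_const_lt ?_
    simpa using hβα
  filter_upwards [t4, eventually_ge_atTop (J + 1)] with n hn hnJ
  have hn0 : (0 : ℝ) < n := by
    have : 0 < n := by omega
    exact_mod_cast this
  have hJn : (J : ℝ) / n ≤ 1 := by
    rw [div_le_one hn0]
    have : J ≤ n := by omega
    exact_mod_cast this
  have hJ0 : 0 ≤ (J : ℝ) / n := by positivity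
  have e1 : (n : ℝ) ^ α * (1 - (J : ℝ) / n) ≤ ((n + 1 - J : ℕ) : ℝ) ^ α := by
    have h2 : (1 - (J : ℝ) / n) ≤ (1 - (J : ℝ) / n) ^ α := by
      rcases eq_or_lt_of_le hJn with h | h
      · rw [h, sub_self, zero_rpow h0.ne']
      · calc (1 - (J : ℝ) / n) = (1 - (J : ℝ) / n) ^ (1 : ℝ) := (rpow_one _).symm
          _ ≤ _ := rpow_le_rpow_of_exponent_ge (by linarith) (by linarith) h1.le
    have h3 : (n : ℝ) * (1 - (J : ℝ) / n) ≤ ((n + 1 - J : ℕ) : ℝ) := by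
      have e : (n : ℝ) * (1 - (J : ℝ) / n) = n - J := by
        field_simp
      rw [e, Nat.cast_sub (by omega)]
      push_cast
      linarith
    calc (n : ℝ) ^ α * (1 - (J : ℝ) / n) ≤ (n : ℝ) ^ α * (1 - (J : ℝ) / n) ^ α :=
          mul_le_mul_of_nonneg_left h2 (rpow_nonneg hn0.le α)
      _ = ((n : ℝ) * (1 - (J : ℝ) / n)) ^ α := (mul_rpow hn0.le (by linarith)).symm
      _ ≤ _ := rpow_le_rpow (mul_nonneg hn0.le (by linarith)) h3 h0.le
  have e2 : (n : ℝ) ^ α * (n : ℝ) ^ (-α) = 1 := by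
    rw [← rpow_add hn0, add_neg_cancel, rpow_zero]
  have hnα : 0 < (n : ℝ) ^ α := rpow_pos_of_pos hn0 α
  calc (n : ℝ) ^ α = (n : ℝ) ^ α * 1 := (mul_one _).symm
    _ ≤ (n : ℝ) ^ α * (β / α * (1 - (J : ℝ) / n - M ^ α * (n : ℝ) ^ (-α))) :=
        mul_le_mul_of_nonneg_left hn.le hnα.le
    _ = β / α * ((n : ℝ) ^ α * (1 - (J : ℝ) / n) - M ^ α * ((n : ℝ) ^ α * (n : ℝ) ^ (-α))) := by
        ring
    _ = β / α * ((n : ℝ) ^ α * (1 - (J : ℝ) / n) - M ^ α) := by rw [e2, mul_one]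
    _ ≤ _ := mul_le_mul_of_nonneg_left (by linarith) (by linarith)

/-- The lower bound. -/
theorem growth_from {σ : ℕ → ℝ} {α β : ℝ} {J M : ℕ} (h0 : 0 < α) (h1 : α < 1) (hβ : α < β) (hJ : 1 ≤ J)
    (hM : 1 ≤ M) (hσ : ∀ n, 0 ≤ σ n) (hpos : ∀ n, M ≤ n → 0 < σ n)
    (hrec : ∀ n, β * ∑ m ∈ range (n + 1 - J), σ m ≤ n * σ n) :
    ∃ c : ℝ, 0 < c ∧ ∀ n : ℕ, M ≤ n → c * (n : ℝ) ^ (α - 1) ≤ σ n := by
  obtain ⟨n0, hn0⟩ := eventually_atTop.1 (large_from (M := (M : ℝ)) h0 h1 hβ J)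
  set n1 := max n0 (J + M) with hn1
  obtain ⟨c, hc, hcn⟩ : ∃ c : ℝ, 0 < c ∧ ∀ n ∈ Icc M n1, c * (n : ℝ) ^ (α - 1) ≤ σ n := by
    have hne : (Icc M n1).Nonempty := ⟨M, mem_Icc.2 ⟨le_rfl, by omega⟩⟩
    obtain ⟨m, hm, hmin⟩ := exists_min_image (Icc M n1) (fun n => σ n / (n : ℝ) ^ (α - 1)) hne
    have hm3 := (mem_Icc.1 hm).1
    have hm0 : (0 : ℝ) < m := by
      have : 0 < m := by omega
      exact_mod_cast this
    refine ⟨σ m / (m : ℝ) ^ (α - 1), div_pos (hpos m hm3) (rpow_pos_of_pos hm0 _), fun n hn => ?_⟩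
    have hn3 := (mem_Icc.1 hn).1
    have hn0 : (0 : ℝ) < n := by
      have : 0 < n := by omega
      exact_mod_cast this
    have := hmin n hn
    rwa [le_div_iff₀ (rpow_pos_of_pos hn0 _)] at this
  refine ⟨c, hc, fun n => ?_⟩
  induction n using Nat.strong_induction_on with
  | _ n ih =>
    intro hn3
    by_cases hle : n ≤ n1
    · exact hcn n (mem_Icc.2 ⟨hn3, hle⟩)
    · have hnn : n0 ≤ n := by omega
      have hnJ : J + M ≤ n := by omega
      have hn0' : (0 : ℝ) < n := by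
        have : 0 < n := by omega
        exact_mod_cast this
      have h2 := hn0 n hnn
      have h3 : M ≤ n + 1 - J := by omega
      have h4 := sum_ge h0 h1 (a := M) (b := n + 1 - J) hM h3
      have h5 : c * ∑ m ∈ Ico M (n + 1 - J), (m : ℝ) ^ (α - 1) ≤
          ∑ m ∈ range (n + 1 - J), σ m := by
        rw [mul_sum]
        calc ∑ m ∈ Ico M (n + 1 - J), c * (m : ℝ) ^ (α - 1) ≤ ∑ m ∈ Ico M (n + 1 - J), σ m :=
              sum_le_sum fun m hm => ih m (by have := (mem_Ico.1 hm).2; omega) (mem_Ico.1 hm).1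
          _ ≤ ∑ m ∈ range (n + 1 - J), σ m := by
              refine sum_le_sum_of_subset_of_nonneg ?_ fun m _ _ => hσ m
              intro m hm
              exact mem_range.2 (mem_Ico.1 hm).2
      have h6 := hrec n
      have hβ0 : 0 < β := h0.trans hβ
      have h7 : β / α * (((n + 1 - J : ℕ) : ℝ) ^ α - M ^ α) ≤
          β * ∑ m ∈ Ico M (n + 1 - J), (m : ℝ) ^ (α - 1) := by
        rw [div_mul_eq_mul_div, div_le_iff₀ h0, mul_assoc]
        refine mul_le_mul_of_nonneg_left ?_ hβ0.le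
        rw [mul_comm]
        exact h4
      have h8 : c * (n : ℝ) ^ α ≤ n * σ n := by
        calc c * (n : ℝ) ^ α ≤ c * (β * ∑ m ∈ Ico M (n + 1 - J), (m : ℝ) ^ (α - 1)) :=
              mul_le_mul_of_nonneg_left (h2.trans h7) hc.le
          _ = β * (c * ∑ m ∈ Ico M (n + 1 - J), (m : ℝ) ^ (α - 1)) := by ring
          _ ≤ β * ∑ m ∈ range (n + 1 - J), σ m := mul_le_mul_of_nonneg_left h5 hβ0.le
          _ ≤ _ := h6
      rw [rpow_sub_one hn0'.ne', mul_div_assoc', div_le_iff₀ hn0', mul_comm (σ n)]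
      exact h8

theorem lower_from {q : ℕ} (hq : 3 ≤ q) {a s : ℕ → ℕ} {δ C : ℝ} (hC : 0 ≤ C) (hδ : δ ≤ 1)
    (h1 : ∀ j, 0 < j → δ * (q : ℝ) ^ j ≤ j * a j + C * (q : ℝ) ^ (j / 2))
    (h2 : ∀ j, 0 < j → j * a j ≤ q ^ j)
    (hb : ∀ J n, ∑ j ∈ Icc J n, j * (a j * s (n - j)) ≤
      n * s n + ∑ j ∈ Icc J n, if 2 * j ≤ n then j * (a j * s (n - 2 * j)) else 0)
    {M : ℕ} (hM : 1 ≤ M) (hpos : ∀ n, M ≤ n → 0 < s n) {α : ℝ} (h0 : 0 < α) (hα : α < δ) :
    ∃ c : ℝ, 0 < c ∧ ∀ n : ℕ, M ≤ n → c * (n : ℝ) ^ (α - 1) * (q : ℝ) ^ n ≤ s n := by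
  have hq0 : (0 : ℝ) < q := by
    have : 0 < q := by omega
    exact_mod_cast this
  obtain ⟨J, hJ, hrec⟩ := rec_gen hq hC h1 h2 hb (β := (α + δ) / 2) (by linarith)
  obtain ⟨c, hc, h⟩ := growth_from (σ := fun n => (s n : ℝ) / (q : ℝ) ^ n) h0 (by linarith)
    (by linarith : α < (α + δ) / 2) hJ hM (fun n => by positivity)
    (fun n hn => div_pos (by exact_mod_cast hpos n hn) (pow_pos hq0 n)) hrec
  refine ⟨c, hc, fun n hn => ?_⟩
  have := h n hn
  rwa [le_div_iff₀ (pow_pos hq0 n)] at this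

open Polynomial
open scoped Classical

variable {k : Type} [Field k] [Finite k]

/-- The number of the squarefree polynomials with all prime factors in a set of primes of positive
lower density. -/
theorem set_count (A : k[X] → Prop)
    (hA' : ∀ (P : k[X]) (c : k), c ≠ 0 → A P → A (C c * P))
    (hq : 3 ≤ Nat.card k) {δ C' : ℝ} (hC : 0 ≤ C') (hδ : δ ≤ 1)
    (hl : ∀ N : ℕ, 0 < N → δ * (Nat.card k : ℝ) ^ N ≤
      N * (sel A N).card + C' * (Nat.card k : ℝ) ^ (N / 2)) {α : ℝ} (h0 : 0 < α) (hα : α < δ) :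
    ∃ (M : ℕ) (c : ℝ), 0 < c ∧ ∀ n : ℕ, M ≤ n → c * (n : ℝ) ^ (α - 1) * (Nat.card k : ℝ) ^ n ≤
      {D : k[X] | D.Monic ∧ Squarefree D ∧ D.natDegree = n ∧
        ∀ P : k[X], Irreducible P → P ∣ D → A P}.ncard := by
  have e2 : ∀ n, {D : k[X] | D.Monic ∧ Squarefree D ∧ D.natDegree = n ∧
      ∀ P : k[X], Irreducible P → P ∣ D → A P}.ncard = (prd A n).card := by
    intro n
    rw [← Set.ncard_coe_finset]
    congr 1
    ext D
    rw [mem_coe, mem_prd, Set.mem_setOf_eq]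
    constructor
    · rintro ⟨h4, h5, h6, h7⟩
      refine ⟨⟨h4, h5, h6⟩, fun P hP => ?_⟩
      obtain ⟨-, h8, h9⟩ := (Pool.Agent.TH943.HJ.mem_primes h4.ne_zero P).1 hP
      exact h7 P h8 h9
    · rintro ⟨⟨h4, h5, h6⟩, h7⟩
      refine ⟨h4, h5, h6, fun P hP hPD => ?_⟩
      obtain ⟨Q, δ, hδ, hQ⟩ := Pool.Agent.TH943.HJ.exists_MI_eq hP
      have h8 : A Q.1 := h7 Q.1
        ((Pool.Agent.TH943.HJ.mem_primes h4.ne_zero Q.1).2 ⟨Q.2.1, Q.2.2,
          (Dvd.intro_left (C δ) hQ.symm).trans hPD⟩)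
      rw [hQ]
      exact hA' _ _ hδ h8
  have hq1 : (1 : ℝ) < Nat.card k := by
    have : 1 < Nat.card k := by omega
    exact_mod_cast this
  obtain ⟨M0, hM0⟩ : ∃ M0 : ℕ, (C' + 1) / δ ≤ (Nat.card k : ℝ) ^ M0 := by
    obtain ⟨M0, h⟩ := pow_unbounded_of_one_lt ((C' + 1) / δ) hq1
    exact ⟨M0, h.le⟩
  have hδ0 : 0 < δ := h0.trans hα
  have hpos : ∀ n, 2 * M0 + 1 ≤ n → 0 < (prd A n).card := by
    intro n hn
    have h4 := hl n (by omega)
    have h5 : 0 < (sel A n).card := by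
      rcases Nat.eq_zero_or_pos (sel A n).card with h | h
      · exfalso
        rw [h, Nat.cast_zero, mul_zero, zero_add] at h4
        have h6 : (Nat.card k : ℝ) ^ n =
            (Nat.card k : ℝ) ^ (n - n / 2) * (Nat.card k : ℝ) ^ (n / 2) := by
          rw [← pow_add]
          congr 1
          omega
        rw [h6, ← mul_assoc] at h4
        have h7 : δ * (Nat.card k : ℝ) ^ (n - n / 2) ≤ C' :=
          le_of_mul_le_mul_right h4 (by positivity)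
        have h8 : (Nat.card k : ℝ) ^ M0 ≤ (Nat.card k : ℝ) ^ (n - n / 2) :=
          pow_le_pow_right₀ hq1.le (by omega)
        have h9 := hM0.trans h8
        rw [div_le_iff₀ hδ0] at h9
        linarith
      · exact h
    obtain ⟨P, hP⟩ := card_pos.1 h5
    obtain ⟨⟨h6, h7, h8⟩, h9⟩ := mem_sel.1 hP
    refine card_pos.2 ⟨P, mem_prd.2 ⟨⟨h6, h7.squarefree, h8⟩, fun Q hQ => ?_⟩⟩
    rw [Pool.Agent.TH943.HJ.primes_of_irreducible h6 h7, mem_singleton] at hQ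
    rw [hQ]
    exact h9
  obtain ⟨c, hc, h⟩ := lower_from hq (a := fun j => (sel A j).card) (s := fun n => (prd A n).card)
    hC hδ (fun j hj => hl j hj) (fun j hj => primes_le A hj)
    (fun J n => basic) (M := 2 * M0 + 1) (by omega) hpos h0 hα
  exact ⟨2 * M0 + 1, c, hc, fun n hn => by rw [e2]; exact h n hn⟩

end Pool.Agent.X261.CT
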